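import Pool.Agent.MP8d69b9.Main

/-!
# MP_8d69b9_al, Q1: negative answer

The bounded derived categories of the polynomial representations of `GA(∞)` and of the algebraic
representations of `𝔖(∞)` are not equivalent compatibly with shifts, units and tensor products.

The definitions are in `Pool.Agent.MP8d69b9.Defs` (the groups, the algebraic representations),
`Pool.Agent.MP8d69b9.AlgRep` (the categories `AlgRep`), `Pool.Agent.MP8d69b9.Bounded` (bounded
complexes) and `Pool.Agent.MP8d69b9.TensorDef` (the tensor product `tensorD` on the bounded
derived category, and `IsTensorCompatible`). The tensor product is well defined up to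
isomorphism: see `Pool.Agent.MP8d69b9.tensorD_iso`.
-/

open CategoryTheory MonoidalCategory

namespace Pool.Agent.Results.MP_8d69b9_al.NoTensorEquivalence

open Pool.Agent.MP8d69b9

universe w₁ w₂

/-- There is no equivalence `F` between the bounded derived category of the polynomial
representations of `GA(∞)` and the bounded derived category of the algebraic representations
of `𝔖(∞)` such that `F (X⟦n⟧) ≅ (F X)⟦n⟧`, `F 1 ≅ 1` and `F (X ⊗ Y) ≅ F X ⊗ F Y` for all objects
`X`, `Y` and all integers `n`. In particular there is no tensor triangulated equivalence. -/
theorem result
    [HasDerivedCategory.{w₁} (AlgRep GAInf)] [HasDerivedCategory.{w₂} (AlgRep SInf)] :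
    ¬ ∃ F : DerivedCategory.Bounded (AlgRep GAInf) ≌ DerivedCategory.Bounded (AlgRep SInf),
      IsTensorCompatible F :=
  no_equivalence''

end Pool.Agent.Results.MP_8d69b9_al.NoTensorEquivalence
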